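import Pool.Agent.Helper528_RL.Event

set_option autoImplicit false

/-!
# The cost of the algorithm
-/

namespace Pool.Agent.Helper528_RL

/-- The number of halvings of `1` until the result is at most `ε`. -/
noncomputable def scale (ε : ℝ) : ℕ := sInf {t : ℕ | (1 / 2 : ℝ) ^ t ≤ ε}

lemma scale_le (ε : ℝ) (hε : 0 < ε) : (1 / 2 : ℝ) ^ scale ε ≤ ε := by
  have h : ∃ t : ℕ, (1 / 2 : ℝ) ^ t ≤ ε := by
    obtain ⟨t, ht⟩ := exists_pow_lt_of_lt_one hε (by norm_num : (1 / 2 : ℝ) < 1)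
    exact ⟨t, ht.le⟩
  exact Nat.sInf_mem h

lemma scale_log (ε : ℝ) (hε : 0 < ε) (hε1 : ε < 1) :
    ((scale ε : ℝ) - 1) * Real.log 2 ≤ Real.log (1 / ε) := by
  have hl : 0 < Real.log 2 := Real.log_pos (by norm_num)
  have h0 : 0 ≤ Real.log (1 / ε) := Real.log_nonneg (by rw [le_div_iff₀ hε]; linarith)
  rcases Nat.eq_zero_or_pos (scale ε) with h | h
  · rw [h]
    push_cast
    nlinarith
  · obtain ⟨s, hs⟩ : ∃ s, scale ε = s + 1 := ⟨scale ε - 1, by omega⟩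
    have h1 : ¬ (1 / 2 : ℝ) ^ s ≤ ε := by
      intro hc
      have : scale ε ≤ s := Nat.sInf_le hc
      omega
    push Not at h1
    rw [hs]
    push_cast
    have h2 : (1 / 2 : ℝ) ^ s = 1 / 2 ^ s := by rw [one_div_pow]
    rw [h2] at h1
    have h3 : (2 : ℝ) ^ s ≤ 1 / ε := by
      rw [le_div_iff₀ hε]
      rw [lt_div_iff₀ (by positivity)] at h1
      linarith
    have h4 := Real.log_le_log (by positivity) h3
    rw [Real.log_pow] at h4
    linarith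

lemma clog_log (n : ℕ) (hn : 2 ≤ n) :
    ((Nat.clog 2 n : ℝ) - 1) * Real.log 2 ≤ Real.log n := by
  have h1 := Nat.pow_pred_clog_lt_self (b := 2) (by norm_num) (by omega : 1 < n)
  have h0 : 0 < Nat.clog 2 n := Nat.clog_pos (by norm_num) hn
  obtain ⟨s, hs⟩ : ∃ s, Nat.clog 2 n = s + 1 := ⟨Nat.clog 2 n - 1, by omega⟩
  rw [hs] at h1 ⊢
  simp only [Nat.pred_eq_sub_one, Nat.add_sub_cancel] at h1
  push_cast
  have h3 : (2 : ℝ) ^ s ≤ n := by exact_mod_cast h1.le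
  have h4 := Real.log_le_log (by positivity) h3
  rw [Real.log_pow] at h4
  linarith

/-- the logarithmic quantities are bounded by the logarithm of `n / ε` -/
lemma sum_le (n : ℕ) (hn : 3 ≤ n) (ε : ℝ) (hε : 0 < ε) (hε1 : ε < 1) :
    (scale ε : ℝ) + Nat.clog 2 n + 1 ≤ 5 * Real.log (n / ε) := by
  have h1 := scale_log ε hε hε1
  have h2 := clog_log n (by omega)
  have hn0 : (0 : ℝ) < n := by positivity
  have e : Real.log (n / ε) = Real.log n + Real.log (1 / ε) := by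
    rw [← Real.log_mul (by positivity) (by positivity)]
    congr 1
    ring
  have h3 : (1 : ℝ) ≤ Real.log (n / ε) := by
    rw [Real.le_log_iff_exp_le (by positivity)]
    have : Real.exp 1 < 3 := lt_trans Real.exp_one_lt_d9 (by norm_num)
    have h4 : (3 : ℝ) ≤ n := by exact_mod_cast hn
    have h5 : (n : ℝ) ≤ n / ε := by
      rw [le_div_iff₀ hε]
      nlinarith
    linarith
  have hl : 0.6931471803 < Real.log 2 := Real.log_two_gt_d9
  rw [e] at h3 ⊢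
  nlinarith

lemma cost_bound (n : ℕ) (hn : 3 ≤ n) (ε : ℝ) (hε : 0 < ε) (hε1 : ε < 1) :
    (((n * n * (scale ε + 7 * Nat.clog 2 n + 2 + 1) + n * n) *
      (4 * (scale ε + 9 * Nat.clog 2 n + 2) + 4) + 2 * scale ε + 2 : ℕ) : ℝ) ≤
      8200 * (n : ℝ) ^ 2 * Real.log (n / ε) ^ 2 := by
  have h := sum_le n hn ε hε hε1
  set L := Real.log (n / ε) with hL
  set t := scale ε
  set u := Nat.clog 2 n with hu
  set T : ℝ := (t : ℝ) + u + 1 with hT
  have ht : (0 : ℝ) ≤ t := Nat.cast_nonneg _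
  have hu0 : (1 : ℝ) ≤ u := by
    have : 0 < Nat.clog 2 n := Nat.clog_pos (by norm_num) (by omega)
    exact_mod_cast this
  have hn1 : (1 : ℝ) ≤ (n : ℝ) ^ 2 := by
    have : (1 : ℝ) ≤ n := by exact_mod_cast (by omega : 1 ≤ n)
    nlinarith
  have hT2 : (2 : ℝ) ≤ T := by linarith
  push_cast
  have h1 : (t : ℝ) + 7 * u + 2 + 1 + 1 ≤ 8 * T := by linarith
  have h2 : 4 * ((t : ℝ) + 9 * u + 2) + 4 ≤ 40 * T := by linarith
  have h3 : (2 : ℝ) * t + 2 ≤ 2 * T * (n : ℝ) ^ 2 := by nlinarith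
  have h4 : ((n : ℝ) * n * (t + 7 * u + 2 + 1) + n * n) * (4 * (t + 9 * u + 2) + 4) =
      (n : ℝ) ^ 2 * ((t + 7 * u + 2 + 1 + 1) * (4 * (t + 9 * u + 2) + 4)) := by ring
  have h5 : ((t : ℝ) + 7 * u + 2 + 1 + 1) * (4 * (t + 9 * u + 2) + 4) ≤ (8 * T) * (40 * T) := by
    gcongr
  have h6 : T ^ 2 ≤ (5 * L) ^ 2 := by gcongr
  calc ((n : ℝ) * n * (t + 7 * u + 2 + 1) + n * n) * (4 * (t + 9 * u + 2) + 4) + 2 * t + 2
      ≤ (n : ℝ) ^ 2 * ((8 * T) * (40 * T)) + 2 * T * (n : ℝ) ^ 2 := by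
        rw [h4]
        have := mul_le_mul_of_nonneg_left h5 (by positivity : (0 : ℝ) ≤ (n : ℝ) ^ 2)
        linarith
    _ ≤ (n : ℝ) ^ 2 * (321 * T ^ 2) := by nlinarith
    _ ≤ (n : ℝ) ^ 2 * (321 * (5 * L) ^ 2) := by gcongr
    _ ≤ 8200 * (n : ℝ) ^ 2 * L ^ 2 := by nlinarith [sq_nonneg L, sq_nonneg ((n : ℝ) * L)]

end Pool.Agent.Helper528_RL
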