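import Pool.Agent.Helper528_RL.Tree

set_option autoImplicit false

/-!
# The algorithm and its analysis
-/

namespace Pool.Agent.Helper528_RL

/-- The entries of `A` have absolute value less than `n ^ 2`, `A` is invertible, and the entries of
the inverse have absolute value at most `n ^ 3`. -/
def Good (n : ℕ) (A : Fin n → Fin n → ℝ) : Prop :=
  (∀ i j, |A i j| < (n : ℝ) ^ 2) ∧ (Matrix.of A).det ≠ 0 ∧
    ∀ i j, |(Matrix.of A)⁻¹ i j| ≤ (n : ℝ) ^ 3

open Classical in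
/-- the rounded inverse of some good matrix with the rounded entries `f` -/
noncomputable def choice (n u t : ℕ) (f : Fin n → Fin n → ℤ) : Fin n → Fin n → ℤ :=
  if h : ∃ A, Good n A ∧ fl (2 * u) (t + 7 * u + 2) A = f then
    fun i j => ⌊(Matrix.of h.choose)⁻¹ i j * 2 ^ (t + 4 * u + 1)⌋
  else 0

/-- the second stage of the algorithm -/
noncomputable def alg (n t : ℕ) : Tree n :=
  readAll (2 * Nat.clog 2 n) (t + 7 * Nat.clog 2 n + 2) (Finset.univ : Finset (Fin n × Fin n)).toList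
    0 fun f => .done (t + 4 * Nat.clog 2 n + 1) (choice n (Nat.clog 2 n) t f)

lemma n_le (n : ℕ) : (n : ℝ) ≤ 2 ^ Nat.clog 2 n := by
  exact_mod_cast Nat.le_pow_clog (by norm_num) n

lemma alg_small (n t : ℕ) : (alg n t).Small (t + 9 * Nat.clog 2 n + 2) := by
  unfold alg
  apply readAll_small
  · omega
  · intro f
    refine ⟨by omega, fun i j => ?_⟩
    unfold choice
    split_ifs with h
    · set u := Nat.clog 2 n with hu
      have h1 := h.choose_spec.1.2.2 i j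
      set y := (Matrix.of h.choose)⁻¹ i j with hy
      have hn := n_le n
      rw [← hu] at hn
      have hn0 : (0 : ℝ) ≤ n := Nat.cast_nonneg n
      have h2 : |y| ≤ 2 ^ (3 * u) := by
        refine h1.trans ?_
        calc (n : ℝ) ^ 3 ≤ (2 ^ u) ^ 3 := by gcongr
          _ = 2 ^ (3 * u) := by rw [← pow_mul]; congr 1; ring
      have h3 : |y * 2 ^ (t + 4 * u + 1)| ≤ 2 ^ (t + 7 * u + 1) := by
        rw [abs_mul, abs_of_pos (by positivity : (0 : ℝ) < 2 ^ (t + 4 * u + 1))]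
        calc |y| * 2 ^ (t + 4 * u + 1) ≤ 2 ^ (3 * u) * 2 ^ (t + 4 * u + 1) := by gcongr
          _ = 2 ^ (t + 7 * u + 1) := by rw [← pow_add]; congr 1; ring
      rw [abs_le] at h3 ⊢
      have e1 : (2 : ℝ) ^ (t + 7 * u + 1) ≤ 2 ^ (t + 9 * u + 2) :=
        pow_le_pow_right₀ (by norm_num) (by omega)
      have e2 : (1 : ℝ) ≤ 2 ^ (t + 7 * u + 1) := one_le_pow₀ (by norm_num)
      have e3 : (2 : ℝ) ^ (t + 7 * u + 1) + 1 ≤ 2 ^ (t + 9 * u + 2) := by
        calc (2 : ℝ) ^ (t + 7 * u + 1) + 1 ≤ 2 ^ (t + 7 * u + 1) + 2 ^ (t + 7 * u + 1) := by linarith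
          _ = 2 ^ (t + 7 * u + 2) := by ring
          _ ≤ _ := pow_le_pow_right₀ (by norm_num) (by omega)
      constructor
      · have := Int.lt_floor_add_one (y * 2 ^ (t + 4 * u + 1))
        have h5 : (-(2 : ℝ) ^ (t + 9 * u + 2)) ≤ (⌊y * 2 ^ (t + 4 * u + 1)⌋ : ℝ) := by linarith
        exact_mod_cast h5
      · have := Int.floor_le (y * 2 ^ (t + 4 * u + 1))
        have h5 : (⌊y * 2 ^ (t + 4 * u + 1)⌋ : ℝ) ≤ (2 : ℝ) ^ (t + 9 * u + 2) := by linarith
        exact_mod_cast h5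
    · simp

lemma alg_run (n t : ℕ) (A : Fin n → Fin n → ℝ) (hA : Good n A) :
    (alg n t).run A = (fun i j => dy (choice n (Nat.clog 2 n) t
      (fl (2 * Nat.clog 2 n) (t + 7 * Nat.clog 2 n + 2) A) i j) (t + 4 * Nat.clog 2 n + 1),
      n * n * (t + 7 * Nat.clog 2 n + 2 + 1)) := by
  unfold alg
  have hA' : ∀ i j, |A i j| < 2 ^ (2 * Nat.clog 2 n) := by
    intro i j
    refine (hA.1 i j).trans_le ?_
    have := n_le n
    calc (n : ℝ) ^ 2 ≤ (2 ^ Nat.clog 2 n) ^ 2 := by gcongr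
      _ = _ := by rw [← pow_mul]; congr 1; ring
  rw [readAll_run _ _ A hA']
  simp only [Finset.mem_toList, Finset.mem_univ, if_true, Tree.run, Finset.length_toList,
    Finset.card_univ, Fintype.card_prod, Fintype.card_fin]
  ext <;> simp

/-- the entries of `A M - 1` are small -/
lemma entry_bound (n t : ℕ) (hn : 1 ≤ n) (A : Fin n → Fin n → ℝ) (hA : Good n A) (i k : Fin n) :
    |∑ j, A i j * ((alg n t).run A).1 j k - if i = k then 1 else 0| ≤
      1 / (2 ^ t * 2 ^ Nat.clog 2 n) := by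
  rw [alg_run n t A hA]
  set u := Nat.clog 2 n with hu
  set q := t + 7 * u + 2 with hq
  set s := t + 4 * u + 1 with hs
  have hex : ∃ A', Good n A' ∧ fl (2 * u) (t + 7 * u + 2) A' = fl (2 * u) q A := ⟨A, hA, rfl⟩
  set A₀ := hex.choose with hA₀
  have hG : Good n A₀ := hex.choose_spec.1
  have hfl : fl (2 * u) (t + 7 * u + 2) A₀ = fl (2 * u) q A := hex.choose_spec.2
  set B := (Matrix.of A₀)⁻¹ with hB
  have hc : choice n u t (fl (2 * u) q A) = fun i j => ⌊B i j * 2 ^ s⌋ := by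
    unfold choice
    rw [dif_pos hex]
  simp only [hc]
  set M : Fin n → Fin n → ℝ := fun j k => dy ⌊B j k * 2 ^ s⌋ s with hM
  have hU : (n : ℝ) ≤ 2 ^ u := n_le n
  have hn0 : (0 : ℝ) < n := by exact_mod_cast hn
  have hU1 : (1 : ℝ) ≤ 2 ^ u := one_le_pow₀ (by norm_num)
  have hAB : ∀ i k, ∑ j, A₀ i j * B j k = if i = k then 1 else 0 := by
    intro i k
    have h1 : Matrix.of A₀ * B = 1 := Matrix.mul_nonsing_inv _ (isUnit_iff_ne_zero.2 hG.2.1)
    have h2 := congrFun (congrFun h1 i) k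
    rw [Matrix.mul_apply, Matrix.one_apply] at h2
    simpa using h2
  have hMB : ∀ j k, |M j k - B j k| ≤ 1 / 2 ^ s := by
    intro j k
    simp only [hM, dy]
    have h1 := Int.floor_le (B j k * 2 ^ s)
    have h2 := Int.lt_floor_add_one (B j k * 2 ^ s)
    have h3 : (0 : ℝ) < 2 ^ s := by positivity
    rw [abs_le]
    constructor
    · rw [neg_le_sub_iff_le_add, ← add_div, le_div_iff₀ h3]
      linarith
    · rw [sub_le_iff_le_add]
      have : (⌊B j k * 2 ^ s⌋ : ℝ) / 2 ^ s ≤ B j k := by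
        rw [div_le_iff₀ h3]
        exact h1
      have h4 : (0 : ℝ) ≤ 1 / 2 ^ s := by positivity
      linarith
  have hAA : ∀ i j, |A i j - A₀ i j| ≤ 2 ^ (2 * u) / 2 ^ q := by
    intro i j
    have h1 : ⌊A i j * 2 ^ q / 2 ^ (2 * u)⌋ = ⌊A₀ i j * 2 ^ q / 2 ^ (2 * u)⌋ :=
      (congrFun (congrFun hfl i) j).symm
    have h2 := (Int.abs_sub_lt_one_of_floor_eq_floor h1).le
    have h3 : A i j * 2 ^ q / 2 ^ (2 * u) - A₀ i j * 2 ^ q / 2 ^ (2 * u) =
        (A i j - A₀ i j) * (2 ^ q / 2 ^ (2 * u)) := by ring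
    rw [h3, abs_mul, abs_of_pos (by positivity : (0 : ℝ) < 2 ^ q / 2 ^ (2 * u))] at h2
    calc |A i j - A₀ i j| = (|A i j - A₀ i j| * (2 ^ q / 2 ^ (2 * u))) * (2 ^ (2 * u) / 2 ^ q) := by
          field_simp
      _ ≤ 1 * (2 ^ (2 * u) / 2 ^ q) := by gcongr
      _ = _ := one_mul _
  have hB' : ∀ j k, |B j k| ≤ (2 ^ u) ^ 3 := by
    intro j k
    exact (hG.2.2 j k).trans (by gcongr)
  have hM' : ∀ j k, |M j k| ≤ 2 * (2 ^ u) ^ 3 := by
    intro j k
    have h1 : |M j k| ≤ |M j k - B j k| + |B j k| := by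
      have := abs_add_le (M j k - B j k) (B j k)
      simpa using this
    have h2 : (1 : ℝ) / 2 ^ s ≤ 1 := by
      rw [div_le_one (by positivity)]
      exact one_le_pow₀ (by norm_num)
    have h3 : (1 : ℝ) ≤ (2 ^ u) ^ 3 := one_le_pow₀ hU1
    linarith [hMB j k, hB' j k]
  have hA0' : ∀ i j, |A₀ i j| ≤ (2 ^ u) ^ 2 := by
    intro i j
    exact (hG.1 i j).le.trans (by gcongr)
  have hsplit : ∑ j, A i j * M j k - (if i = k then 1 else 0) =
      ∑ j, ((A i j - A₀ i j) * M j k + A₀ i j * (M j k - B j k)) := by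
    rw [← hAB i k, ← Finset.sum_sub_distrib]
    refine Finset.sum_congr rfl fun j _ => ?_
    ring
  change |∑ j, A i j * M j k - (if i = k then 1 else 0)| ≤ _
  rw [hsplit]
  have hterm : ∀ j, |(A i j - A₀ i j) * M j k + A₀ i j * (M j k - B j k)| ≤
      2 ^ (2 * u) / 2 ^ q * (2 * (2 ^ u) ^ 3) + (2 ^ u) ^ 2 * (1 / 2 ^ s) := by
    intro j
    refine (abs_add_le _ _).trans ?_
    rw [abs_mul, abs_mul]
    gcongr
    · exact hAA i j
    · exact hM' j k
    · exact hA0' i j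
    · exact hMB j k
  refine (Finset.abs_sum_le_sum_abs _ _).trans ((Finset.sum_le_sum fun j _ => hterm j).trans ?_)
  rw [Finset.sum_const, Finset.card_univ, Fintype.card_fin, nsmul_eq_mul]
  have e1 : (2 : ℝ) ^ q = 4 * 2 ^ t * (2 ^ u) ^ 7 := by
    rw [hq, pow_add, pow_add, pow_mul']
    ring
  have e2 : (2 : ℝ) ^ s = 2 * 2 ^ t * (2 ^ u) ^ 4 := by
    rw [hs, pow_add, pow_add, pow_mul']
    ring
  have e3 : (2 : ℝ) ^ (2 * u) = (2 ^ u) ^ 2 := by rw [pow_mul']
  rw [e1, e2, e3]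
  set U : ℝ := 2 ^ u with hUdef
  set T : ℝ := 2 ^ t with hT
  have hU0 : 0 < U := by positivity
  have hT0 : 0 < T := by positivity
  have e4 : U ^ 2 / (4 * T * U ^ 7) * (2 * U ^ 3) + U ^ 2 * (1 / (2 * T * U ^ 4)) =
      1 / (T * U * U) := by
    field_simp
    ring
  rw [e4]
  calc (n : ℝ) * (1 / (T * U * U)) ≤ U * (1 / (T * U * U)) := by gcongr
    _ = 1 / (T * U) := by field_simp

/-- the residual is small -/
theorem residual (n t : ℕ) (hn : 1 ≤ n) (A : Fin n → Fin n → ℝ) (hA : Good n A) (b : Fin n → ℝ) :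
    ∑ i, (∑ j, A i j * (∑ k, ((alg n t).run A).1 j k * b k) - b i) ^ 2 ≤
      (1 / 2 ^ t) ^ 2 * ∑ i, b i ^ 2 := by
  set M := ((alg n t).run A).1 with hM
  set N : Fin n → Fin n → ℝ := fun i k => ∑ j, A i j * M j k - if i = k then 1 else 0 with hN
  have h1 : ∀ i, ∑ j, A i j * (∑ k, M j k * b k) - b i = ∑ k, N i k * b k := by
    intro i
    simp only [hN, sub_mul, Finset.sum_sub_distrib, ite_mul, one_mul, zero_mul,
      Finset.sum_ite_eq, Finset.mem_univ, if_true]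
    congr 1
    simp_rw [Finset.mul_sum, Finset.sum_mul]
    rw [Finset.sum_comm]
    refine Finset.sum_congr rfl fun k _ => Finset.sum_congr rfl fun j _ => ?_
    ring
  set η : ℝ := 1 / (2 ^ t * 2 ^ Nat.clog 2 n) with hη
  have hη0 : 0 ≤ η := by positivity
  have h2 : ∀ i, (∑ k, N i k * b k) ^ 2 ≤ (n * η ^ 2) * ∑ k, b k ^ 2 := by
    intro i
    refine (Finset.sum_mul_sq_le_sq_mul_sq _ _ _).trans ?_
    gcongr
    calc ∑ k, N i k ^ 2 ≤ ∑ _k : Fin n, η ^ 2 := by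
          refine Finset.sum_le_sum fun k _ => ?_
          rw [← sq_abs]
          have := entry_bound n t hn A hA i k
          gcongr
      _ = n * η ^ 2 := by simp
  calc ∑ i, (∑ j, A i j * (∑ k, M j k * b k) - b i) ^ 2
      = ∑ i, (∑ k, N i k * b k) ^ 2 := Finset.sum_congr rfl fun i _ => by rw [h1 i]
    _ ≤ ∑ _i : Fin n, (n * η ^ 2) * ∑ k, b k ^ 2 := Finset.sum_le_sum fun i _ => h2 i
    _ = (n * η) ^ 2 * ∑ k, b k ^ 2 := by simp; ring
    _ ≤ (1 / 2 ^ t) ^ 2 * ∑ i, b i ^ 2 := by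
        have h3 : (n : ℝ) * η ≤ 1 / 2 ^ t := by
          rw [hη]
          calc (n : ℝ) * (1 / (2 ^ t * 2 ^ Nat.clog 2 n))
              ≤ 2 ^ Nat.clog 2 n * (1 / (2 ^ t * 2 ^ Nat.clog 2 n)) := by
                gcongr
                exact n_le n
            _ = 1 / 2 ^ t := by field_simp
        gcongr

end Pool.Agent.Helper528_RL
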