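import Pool.Agent.Helper528_RL.Prob
import Pool.Agent.Helper528_RL.Det

set_option autoImplicit false

/-!
# The good event has probability at least `1 - 3 / n`
-/

namespace Pool.Agent.Helper528_RL

open MeasureTheory ProbabilityTheory Filter Topology Matrix Function
open scoped ENNReal

/-- the matrix with the entries `x (i, j)` -/
def mat {n : ℕ} (x : Fin n × Fin n → ℝ) : Fin n → Fin n → ℝ := fun i j => x (i, j)

lemma sub_id {n : ℕ} (x : Fin n × Fin n → ℝ) : sub (fun i : Fin n => i) x = Matrix.of (mat x) := rfl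

/-- The good event: all entries are less than `n ^ 2` in absolute value, the determinant is not zero,
and all cofactors are at most `n ^ 3` times the determinant, in absolute value. -/
def E (n : ℕ) : Set (Fin n × Fin n → ℝ) :=
  {x | (∀ p, |x p| < (n : ℝ) ^ 2) ∧ (Matrix.of (mat x)).det ≠ 0 ∧
    ∀ i j, |(Matrix.of (mat x)).adjugate i j| ≤ (n : ℝ) ^ 3 * |(Matrix.of (mat x)).det|}

lemma good_of_E {n : ℕ} {x : Fin n × Fin n → ℝ} (hx : x ∈ E n) : Good n (mat x) := by
  obtain ⟨h1, h2, h3⟩ := hx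
  refine ⟨fun i j => h1 (i, j), h2, fun i j => ?_⟩
  rw [Matrix.inv_def, Matrix.smul_apply, Ring.inverse_eq_inv', smul_eq_mul, abs_mul, abs_inv]
  have h4 : 0 < |(Matrix.of (mat x)).det| := abs_pos.2 h2
  rw [inv_mul_le_iff₀ h4]
  exact (h3 i j).trans (le_of_eq (mul_comm _ _))

lemma cont_mat {n : ℕ} : Continuous (fun x : Fin n × Fin n → ℝ => Matrix.of (mat x)) :=
  cont_sub (fun i : Fin n => i)

lemma measurable_E (n : ℕ) : MeasurableSet (E n) := by
  have h1 : Continuous (fun x : Fin n × Fin n → ℝ => (Matrix.of (mat x)).det) :=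
    cont_mat.matrix_det
  have h2 : ∀ i j, Continuous (fun x : Fin n × Fin n → ℝ => (Matrix.of (mat x)).adjugate i j) :=
    fun i j => cont_mat.matrix_adjugate.matrix_elem i j
  have e : E n = (⋂ p, {x | |x p| < (n : ℝ) ^ 2}) ∩ ({x | (Matrix.of (mat x)).det ≠ 0} ∩
      ⋂ i, ⋂ j, {x | |(Matrix.of (mat x)).adjugate i j| ≤ (n : ℝ) ^ 3 * |(Matrix.of (mat x)).det|}) := by
    ext x
    simp [E]
  rw [e]
  refine (MeasurableSet.iInter fun p => ?_).inter (MeasurableSet.inter ?_
    (MeasurableSet.iInter fun i => MeasurableSet.iInter fun j => ?_))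
  · exact (isOpen_lt (by fun_prop) continuous_const).measurableSet
  · exact (isClosed_singleton.preimage h1).measurableSet.compl
  · exact (isClosed_le (h2 i j).abs (continuous_const.mul h1.abs)).measurableSet

lemma adj_update {n : ℕ} (x : Fin n × Fin n → ℝ) (i j : Fin n) (y : ℝ) :
    (Matrix.of (mat (update x (i, j) y))).adjugate j i = (Matrix.of (mat x)).adjugate j i := by
  rw [Matrix.adjugate_apply, Matrix.adjugate_apply]
  congr 1
  ext a b
  by_cases ha : a = i
  · subst ha
    simp [Matrix.updateRow_apply]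
  · have : (a, b) ≠ (i, j) := fun h => ha (Prod.ext_iff.1 h).1
    simp [Matrix.updateRow_apply, ha, mat]

lemma prob_entry {n : ℕ} (p : Fin n × Fin n) (R : ℝ) (hR : 0 < R) :
    G (Fin n × Fin n) {x | R ≤ |x p|} ≤ ENNReal.ofReal (1 / R ^ 2) := by
  refine slice _ (isClosed_le continuous_const (by fun_prop)).measurableSet p _ fun x => ?_
  have : {y | update x p y ∈ {x : Fin n × Fin n → ℝ | R ≤ |x p|}} = {y | R ≤ |y|} := by
    ext y
    simp
  rw [this]
  exact tail R hR

lemma prob_adj {n : ℕ} (i j : Fin n) (τ : ℝ) :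
    G (Fin n × Fin n) {x | |(Matrix.of (mat x)).det| < τ * |(Matrix.of (mat x)).adjugate j i|} ≤
      ENNReal.ofReal (2 * τ) := by
  have h1 : Continuous (fun x : Fin n × Fin n → ℝ => (Matrix.of (mat x)).det) :=
    cont_mat.matrix_det
  have h2 : Continuous (fun x : Fin n × Fin n → ℝ => (Matrix.of (mat x)).adjugate j i) :=
    cont_mat.matrix_adjugate.matrix_elem j i
  have hS : MeasurableSet {x : Fin n × Fin n → ℝ |
      |(Matrix.of (mat x)).det| < τ * |(Matrix.of (mat x)).adjugate j i|} :=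
    (isOpen_lt h1.abs (continuous_const.mul h2.abs)).measurableSet
  refine slice _ hS (i, j) _ fun x => ?_
  have : {y | update x (i, j) y ∈ {x : Fin n × Fin n → ℝ |
      |(Matrix.of (mat x)).det| < τ * |(Matrix.of (mat x)).adjugate j i|}} =
      {y | |(Matrix.of (mat x)).det + (y - x (i, j)) * (Matrix.of (mat x)).adjugate j i| <
        τ * |(Matrix.of (mat x)).adjugate j i|} := by
    ext y
    have h3 := sub_update (fun i : Fin n => i) (fun _ _ h => h) x i j y
    rw [sub_id, sub_id] at h3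
    simp only [Set.mem_ofPred_eq, adj_update, h3]
  rw [this]
  exact small_ball _ _ _ _

theorem prob_E (n : ℕ) (hn : 1 ≤ n) : G (Fin n × Fin n) (E n)ᶜ ≤ ENNReal.ofReal (3 / n) := by
  have hn0 : (0 : ℝ) < n := by exact_mod_cast hn
  have hsub : (E n)ᶜ ⊆ (⋃ p, {x : Fin n × Fin n → ℝ | (n : ℝ) ^ 2 ≤ |x p|}) ∪
      ({x | (sub (fun i : Fin n => i) x).det = 0} ∪
        ⋃ p : Fin n × Fin n, {x : Fin n × Fin n → ℝ | |(Matrix.of (mat x)).det| <
          (1 / (n : ℝ) ^ 3) * |(Matrix.of (mat x)).adjugate p.2 p.1|}) := by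
    intro x hx
    by_contra hcon
    simp only [Set.mem_union, Set.mem_iUnion, Set.mem_ofPred_eq, not_or, not_exists, not_le,
      not_lt, sub_id] at hcon
    apply hx
    refine ⟨hcon.1, hcon.2.1, fun i j => ?_⟩
    have h1 := hcon.2.2 (j, i)
    simp only at h1
    have h2 : (0 : ℝ) < (n : ℝ) ^ 3 := by positivity
    calc |(Matrix.of (mat x)).adjugate i j|
        = (n : ℝ) ^ 3 * (1 / (n : ℝ) ^ 3 * |(Matrix.of (mat x)).adjugate i j|) := by
          field_simp
      _ ≤ _ := by gcongr
  refine (measure_mono hsub).trans ((measure_union_le _ _).trans ?_)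
  have a1 : G (Fin n × Fin n) (⋃ p, {x : Fin n × Fin n → ℝ | (n : ℝ) ^ 2 ≤ |x p|}) ≤
      ENNReal.ofReal (1 / n) := by
    refine (measure_iUnion_fintype_le _ _).trans ?_
    refine (Finset.sum_le_sum fun p _ => prob_entry p _ (by positivity)).trans ?_
    rw [Finset.sum_const, Finset.card_univ, Fintype.card_prod, Fintype.card_fin, nsmul_eq_mul,
      ← ENNReal.ofReal_natCast, ← ENNReal.ofReal_mul (by positivity)]
    apply ENNReal.ofReal_le_ofReal
    push_cast
    have : (n : ℝ) * n * (1 / ((n : ℝ) ^ 2) ^ 2) = 1 / (n * n) := by field_simp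
    rw [this]
    apply one_div_le_one_div_of_le hn0
    have : (1 : ℝ) ≤ n := by exact_mod_cast hn
    nlinarith
  have a2 : G (Fin n × Fin n) {x | (sub (fun i : Fin n => i) x).det = 0} = 0 :=
    det_null n _ fun _ _ h => h
  have a3 : G (Fin n × Fin n) (⋃ p : Fin n × Fin n, {x : Fin n × Fin n → ℝ |
      |(Matrix.of (mat x)).det| < (1 / (n : ℝ) ^ 3) * |(Matrix.of (mat x)).adjugate p.2 p.1|}) ≤
      ENNReal.ofReal (2 / n) := by
    refine (measure_iUnion_fintype_le _ _).trans ?_
    refine (Finset.sum_le_sum fun p _ => prob_adj p.1 p.2 _).trans ?_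
    rw [Finset.sum_const, Finset.card_univ, Fintype.card_prod, Fintype.card_fin, nsmul_eq_mul,
      ← ENNReal.ofReal_natCast, ← ENNReal.ofReal_mul (by positivity)]
    apply ENNReal.ofReal_le_ofReal
    push_cast
    have : (n : ℝ) * n * (2 * (1 / (n : ℝ) ^ 3)) = 2 / n := by field_simp
    rw [this]
  calc _ ≤ ENNReal.ofReal (1 / n) + (0 + ENNReal.ofReal (2 / n)) := by
        refine add_le_add a1 ((measure_union_le _ _).trans ?_)
        rw [a2]
        exact add_le_add le_rfl a3
    _ = ENNReal.ofReal (3 / n) := by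
        rw [zero_add, ← ENNReal.ofReal_add (by positivity) (by positivity)]
        congr 1
        ring

end Pool.Agent.Helper528_RL
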