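import Mathlib

set_option autoImplicit false

/-!
# Inverses of Gaussian matrices have entries of polynomial size
-/

namespace Pool.Agent.Helper528_RL

open MeasureTheory ProbabilityTheory Filter Topology Matrix Function
open scoped ENNReal

/-- the standard normal law -/
noncomputable abbrev g : Measure ℝ := gaussianReal 0 1

instance : NullSingletonClass g := nullSingletonClass_gaussianReal (by norm_num)

/-- the law of a family of independent standard normal variables -/
noncomputable abbrev G (ι : Type) [Fintype ι] : Measure (ι → ℝ) := Measure.pi fun _ => g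

lemma slice {ι : Type} [Fintype ι] [DecidableEq ι] (S : Set (ι → ℝ)) (hS : MeasurableSet S) (p : ι)
    (c : ℝ≥0∞) (h : ∀ x, g {y | update x p y ∈ S} ≤ c) : G ι S ≤ c := by
  classical
  have h1 : G ι S = ∫⁻ x, S.indicator 1 x ∂(G ι) := by
    rw [lintegral_indicator_one hS]
  rw [h1, lintegral_eq_lmarginal_univ (μ := fun _ : ι => g) (fun _ => 0),
    lmarginal_erase' _ (measurable_one.indicator hS) (Finset.mem_univ p)]
  have h2 : (fun x : ι → ℝ => ∫⁻ xᵢ, S.indicator (1 : (ι → ℝ) → ℝ≥0∞) (update x p xᵢ) ∂g) ≤ fun _ => c := by
    intro x
    refine le_trans (le_of_eq ?_) (h x)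
    have h3 : MeasurableSet {y | update x p y ∈ S} := by
      exact (measurable_update x) hS
    rw [← lintegral_indicator_one h3]
    rfl
  refine (lmarginal_mono h2 _).trans ?_
  simp [lmarginal]

lemma g_le_volume (s : Set ℝ) : g s ≤ volume s := by
  rw [gaussianReal_apply 0 (by norm_num : (1 : NNReal) ≠ 0) s]
  calc ∫⁻ x in s, gaussianPDF 0 1 x ≤ ∫⁻ _ in s, 1 := by
        apply lintegral_mono
        intro x
        simp only [gaussianPDF]
        rw [← ENNReal.ofReal_one]
        apply ENNReal.ofReal_le_ofReal
        rw [gaussianPDFReal]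
        have h1 : (√(2 * Real.pi * ((1 : NNReal) : ℝ)))⁻¹ ≤ 1 := by
          apply inv_le_one_of_one_le₀
          rw [Real.one_le_sqrt]
          have := Real.pi_gt_three
          norm_num
          linarith
        have h2 : Real.exp (-(x - 0) ^ 2 / (2 * ((1 : NNReal) : ℝ))) ≤ 1 := by
          rw [Real.exp_le_one_iff]
          have : 0 ≤ (x - 0) ^ 2 := sq_nonneg _
          apply div_nonpos_of_nonpos_of_nonneg
          · linarith
          · positivity
        calc _ ≤ 1 * 1 := mul_le_mul h1 h2 (Real.exp_pos _).le (by norm_num)
          _ = 1 := by norm_num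
    _ = volume s := by simp

lemma small_ball (a c y₀ τ : ℝ) : g {y | |a + (y - y₀) * c| < τ * |c|} ≤ ENNReal.ofReal (2 * τ) := by
  by_cases hc : c = 0
  · subst hc
    have : {y : ℝ | |a + (y - y₀) * 0| < τ * |0|} = ∅ := by
      ext y
      simp
    rw [this]
    simp
  · refine (g_le_volume _).trans ?_
    have h1 : {y | |a + (y - y₀) * c| < τ * |c|} ⊆ Metric.ball (y₀ - a / c) τ := by
      intro y hy
      simp only [Set.mem_ofPred_eq] at hy
      rw [Metric.mem_ball, Real.dist_eq]
      have h2 : a + (y - y₀) * c = (y - (y₀ - a / c)) * c := by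
        field_simp
        ring
      rw [h2, abs_mul] at hy
      exact lt_of_mul_lt_mul_right hy (abs_nonneg c)
    refine (measure_mono h1).trans ?_
    rw [Real.volume_ball]

lemma tail (R : ℝ) (hR : 0 < R) : g {y | R ≤ |y|} ≤ ENNReal.ofReal (1 / R ^ 2) := by
  have h := meas_ge_le_variance_div_sq (μ := g) (X := id) (memLp_id_gaussianReal 2) hR
  rw [variance_id_gaussianReal] at h
  simp only [id, integral_id_gaussianReal, sub_zero] at h
  simpa using h

variable {ι : Type} [Fintype ι] [DecidableEq ι]

/-- the square matrix with the entries `x (e i, e j)` -/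
def sub {n k : ℕ} (e : Fin k → Fin n) (x : Fin n × Fin n → ℝ) : Matrix (Fin k) (Fin k) ℝ :=
  Matrix.of fun i j => x (e i, e j)

lemma sub_update {n k : ℕ} (e : Fin k → Fin n) (he : Injective e) (x : Fin n × Fin n → ℝ)
    (i j : Fin k) (y : ℝ) :
    (sub e (update x (e i, e j) y)).det =
      (sub e x).det + (y - x (e i, e j)) * (sub e x).adjugate j i := by
  have h1 : sub e (update x (e i, e j) y) =
      (sub e x).updateRow i ((sub e x) i + (y - x (e i, e j)) • (Pi.single j 1 : Fin k → ℝ)) := by
    ext a b
    by_cases ha : a = i
    · subst ha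
      by_cases hb : b = j
      · subst hb
        simp [sub, Matrix.updateRow_apply]
      · have : (e a, e b) ≠ (e a, e j) := by
          intro h
          exact hb (he (Prod.ext_iff.1 h).2)
        simp [sub, Matrix.updateRow_apply, update_of_ne this, hb]
    · have : (e a, e b) ≠ (e i, e j) := by
        intro h
        exact ha (he (Prod.ext_iff.1 h).1)
      simp [sub, Matrix.updateRow_apply, ha, update_of_ne this]
  rw [h1, Matrix.det_updateRow_add, Matrix.det_updateRow_smul, Matrix.adjugate_apply]
  congr 1
  rw [Matrix.updateRow_eq_self]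

lemma cont_sub {n k : ℕ} (e : Fin k → Fin n) : Continuous (sub e : (Fin n × Fin n → ℝ) → _) := by
  unfold sub
  refine continuous_matrix fun i j => ?_
  simp only [Matrix.of_apply]
  exact continuous_apply _

lemma det_null {n : ℕ} : ∀ (k : ℕ) (e : Fin k → Fin n), Injective e →
    G (Fin n × Fin n) {x | (sub e x).det = 0} = 0 := by
  intro k
  induction k with
  | zero =>
    intro e _
    have : {x : Fin n × Fin n → ℝ | (sub e x).det = 0} = ∅ := by
      ext x
      simp [Matrix.det_isEmpty]
    rw [this]
    simp
  | succ k ih =>
    intro e he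
    set e' : Fin k → Fin n := fun i => e i.succ with he'
    have hinj : Injective e' := he.comp (Fin.succ_injective k)
    have h1 := ih e' hinj
    have hsub : {x : Fin n × Fin n → ℝ | (sub e x).det = 0} ⊆
        {x | (sub e' x).det = 0} ∪ {x | (sub e x).det = 0 ∧ (sub e' x).det ≠ 0} := by
      intro x hx
      by_cases h : (sub e' x).det = 0
      · exact Or.inl h
      · exact Or.inr ⟨hx, h⟩
    refine measure_mono_null hsub ?_
    rw [measure_union_null_iff]
    refine ⟨h1, ?_⟩
    have hm : MeasurableSet {x : Fin n × Fin n → ℝ | (sub e x).det = 0 ∧ (sub e' x).det ≠ 0} := by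
      apply MeasurableSet.inter
      · exact (isClosed_singleton.preimage (cont_sub e).matrix_det).measurableSet
      · exact (isClosed_singleton.preimage (cont_sub e').matrix_det).measurableSet.compl
    have := slice _ hm (e 0, e 0) 0 ?_
    · exact nonpos_iff_eq_zero.1 this
    · intro x
      have hadj : (sub e x).adjugate 0 0 = (sub e' x).det := by
        rw [Matrix.adjugate_fin_succ_eq_det_submatrix]
        simp only [Fin.val_zero, add_zero, pow_zero, one_mul]
        congr 1
      have he2 : ∀ y, sub e' (update x (e 0, e 0) y) = sub e' x := by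
        intro y
        ext a b
        have : (e' a, e' b) ≠ (e 0, e 0) := by
          intro h
          have := he (Prod.ext_iff.1 h).1
          exact absurd this (Fin.succ_ne_zero a)
        simp [sub, update_of_ne this]
      by_cases hd : (sub e' x).det = 0
      · have : {y | update x (e 0, e 0) y ∈
            {x : Fin n × Fin n → ℝ | (sub e x).det = 0 ∧ (sub e' x).det ≠ 0}} = ∅ := by
          ext y
          simp [he2, hd]
        rw [this]
        simp
      · have : {y | update x (e 0, e 0) y ∈
            {x : Fin n × Fin n → ℝ | (sub e x).det = 0 ∧ (sub e' x).det ≠ 0}} ⊆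
            {x (e 0, e 0) - (sub e x).det / (sub e' x).det} := by
          intro y hy
          simp only [Set.mem_ofPred_eq, sub_update e he, hadj] at hy
          simp only [Set.mem_singleton_iff]
          field_simp
          linarith [hy.1]
        exact (measure_mono this).trans (by simp)

end Pool.Agent.Helper528_RL
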