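import Mathlib

set_option autoImplicit false

/-!
# Decision trees that read a matrix and then apply a constant matrix
-/

namespace Pool.Agent.Helper528_RL

/-- The dyadic number `m / 2 ^ s`. -/
noncomputable def dy (m : ℤ) (s : ℕ) : ℝ := (m : ℝ) / 2 ^ s

/-- The second stage of an algorithm for matrices of size `n`: entries of the matrix are compared
with dyadic constants `m / 2 ^ s`, depending on the outcomes of the earlier comparisons, until a
matrix of dyadic constants `M i j / 2 ^ s` is chosen, which is then multiplied with the right-hand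
side. -/
inductive Tree (n : ℕ) : Type
  | done (s : ℕ) (M : Fin n → Fin n → ℤ) : Tree n
  | cmp (i j : Fin n) (m : ℤ) (s : ℕ) (yes no : Tree n) : Tree n

/-- The matrix of constants which is chosen for the matrix `A`, and the number of comparisons. -/
noncomputable def Tree.run {n : ℕ} : Tree n → (Fin n → Fin n → ℝ) → (Fin n → Fin n → ℝ) × ℕ
  | .done s M, _ => (fun i j => dy (M i j) s, 0)
  | .cmp i j m s yes no, A =>
      if A i j < dy m s then ((yes.run A).1, (yes.run A).2 + 1)
      else ((no.run A).1, (no.run A).2 + 1)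

/-- All the constants `m / 2 ^ s` of the tree have `|m| ≤ 2 ^ w` and `s ≤ w`. -/
def Tree.Small {n : ℕ} (w : ℕ) : Tree n → Prop
  | .done s M => s ≤ w ∧ ∀ i j, |M i j| ≤ 2 ^ w
  | .cmp _ _ m s yes no => s ≤ w ∧ |m| ≤ 2 ^ w ∧ yes.Small w ∧ no.Small w

/-! ### Reading an entry -/

/-- refine the position of the entry `i, j` by `q` comparisons -/
def readEntry {n : ℕ} (i j : Fin n) (r : ℕ) : ℕ → ℕ → ℤ → (ℤ → Tree n) → Tree n
  | 0, _, m, k => k m
  | q + 1, l, m, k => .cmp i j (2 ^ r * (2 * m + 1)) (l + 1)
      (readEntry i j r q (l + 1) (2 * m) k) (readEntry i j r q (l + 1) (2 * m + 1) k)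

lemma floor_two (x : ℝ) : ⌊2 * x⌋ = if 2 * x < 2 * ⌊x⌋ + 1 then 2 * ⌊x⌋ else 2 * ⌊x⌋ + 1 := by
  have h1 := Int.floor_le x
  have h2 := Int.lt_floor_add_one x
  split_ifs with h
  · rw [Int.floor_eq_iff]
    push_cast
    constructor <;> linarith
  · rw [Int.floor_eq_iff]
    push_cast
    push Not at h
    constructor <;> linarith

lemma readEntry_run {n : ℕ} (i j : Fin n) (r : ℕ) (A : Fin n → Fin n → ℝ) (k : ℤ → Tree n) :
    ∀ (q l : ℕ) (m : ℤ), m = ⌊A i j * 2 ^ l / 2 ^ r⌋ →
      (readEntry i j r q l m k).run A = ((k ⌊A i j * 2 ^ (l + q) / 2 ^ r⌋).run A).map id (· + q) := by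
  intro q
  induction q with
  | zero =>
    intro l m hm
    simp only [readEntry, add_zero, ← hm]
    rfl
  | succ q ih =>
    intro l m hm
    have hx : A i j * 2 ^ (l + 1) / 2 ^ r = 2 * (A i j * 2 ^ l / 2 ^ r) := by
      rw [pow_succ]
      ring
    have hf := floor_two (A i j * 2 ^ l / 2 ^ r)
    rw [← hx, ← hm] at hf
    have hiff : A i j < dy (2 ^ r * (2 * m + 1)) (l + 1) ↔
        A i j * 2 ^ (l + 1) / 2 ^ r < 2 * (m : ℝ) + 1 := by
      unfold dy
      rw [lt_div_iff₀ (by positivity), div_lt_iff₀ (by positivity)]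
      push_cast
      constructor <;> intro h <;> linarith
    simp only [readEntry, Tree.run]
    by_cases hc : A i j < dy (2 ^ r * (2 * m + 1)) (l + 1)
    · rw [if_pos hc]
      rw [if_pos (hiff.1 hc)] at hf
      rw [ih (l + 1) (2 * m) hf.symm, show l + 1 + q = l + (q + 1) by ring]
      ext <;> simp [add_assoc]
    · rw [if_neg hc]
      rw [if_neg (fun h => hc (hiff.2 h))] at hf
      rw [ih (l + 1) (2 * m + 1) hf.symm, show l + 1 + q = l + (q + 1) by ring]
      ext <;> simp [add_assoc]

lemma readEntry_small {n : ℕ} (i j : Fin n) (r w : ℕ) (k : ℤ → Tree n) :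
    ∀ (q l : ℕ) (m : ℤ), -2 ^ l ≤ m → m < 2 ^ l → r + l + q ≤ w →
      (∀ m : ℤ, -2 ^ (l + q) ≤ m → m < 2 ^ (l + q) → (k m).Small w) →
      (readEntry i j r q l m k).Small w := by
  intro q
  induction q with
  | zero =>
    intro l m h1 h2 _ hk
    exact hk m (by simpa using h1) (by simpa using h2)
  | succ q ih =>
    intro l m h1 h2 hw hk
    have e1 : (2 : ℤ) ^ (l + 1) = 2 * 2 ^ l := by ring
    refine ⟨by omega, ?_, ih (l + 1) (2 * m) (by linarith) (by linarith) (by omega) ?_,
      ih (l + 1) (2 * m + 1) (by linarith) (by omega) (by omega) ?_⟩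
    · rw [abs_mul, abs_of_nonneg (by positivity : (0 : ℤ) ≤ 2 ^ r)]
      have h3 : |2 * m + 1| ≤ 2 ^ (l + 1) := by
        rw [abs_le]
        constructor <;> omega
      calc (2 : ℤ) ^ r * |2 * m + 1| ≤ 2 ^ r * 2 ^ (l + 1) := by gcongr
        _ = 2 ^ (r + (l + 1)) := (pow_add _ _ _).symm
        _ ≤ 2 ^ w := pow_le_pow_right₀ (by norm_num) (by omega)
    · intro m' h3 h4
      exact hk m' (by rwa [show l + (q + 1) = l + 1 + q by ring])
        (by rwa [show l + (q + 1) = l + 1 + q by ring])
    · intro m' h3 h4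
      exact hk m' (by rwa [show l + (q + 1) = l + 1 + q by ring])
        (by rwa [show l + (q + 1) = l + 1 + q by ring])

/-! ### Reading all entries -/

/-- the matrix `f` with the entry at `p` replaced by `m` -/
def upd {n : ℕ} (f : Fin n → Fin n → ℤ) (p : Fin n × Fin n) (m : ℤ) : Fin n → Fin n → ℤ :=
  fun i j => if (i, j) = p then m else f i j

/-- read the entries in the list -/
def readAll {n : ℕ} (r q : ℕ) : List (Fin n × Fin n) → (Fin n → Fin n → ℤ) →
    ((Fin n → Fin n → ℤ) → Tree n) → Tree n
  | [], f, k => k f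
  | p :: l, f, k => .cmp p.1 p.2 0 0
      (readEntry p.1 p.2 r q 0 (-1) fun m => readAll r q l (upd f p m) k)
      (readEntry p.1 p.2 r q 0 0 fun m => readAll r q l (upd f p m) k)

/-- the rounded entries -/
noncomputable def fl {n : ℕ} (r q : ℕ) (A : Fin n → Fin n → ℝ) (i j : Fin n) : ℤ :=
  ⌊A i j * 2 ^ q / 2 ^ r⌋

open Classical in
lemma readAll_run {n : ℕ} (r q : ℕ) (A : Fin n → Fin n → ℝ) (hA : ∀ i j, |A i j| < 2 ^ r)
    (k : (Fin n → Fin n → ℤ) → Tree n) :
    ∀ (l : List (Fin n × Fin n)) (f : Fin n → Fin n → ℤ),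
      (readAll r q l f k).run A =
        ((k fun i j => if (i, j) ∈ l then fl r q A i j else f i j).run A).map id
          (· + l.length * (q + 1)) := by
  intro l
  induction l with
  | nil =>
    intro f
    simp only [readAll, List.not_mem_nil, if_false, List.length_nil, zero_mul, add_zero]
    rcases (k f).run A with ⟨a, b⟩
    rfl
  | cons p l ih =>
    intro f
    have key : ∀ m₀ : ℤ, m₀ = ⌊A p.1 p.2 * 2 ^ 0 / 2 ^ r⌋ →
        (readEntry p.1 p.2 r q 0 m₀ fun m => readAll r q l (upd f p m) k).run A =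
        ((k fun i j => if (i, j) ∈ p :: l then fl r q A i j else f i j).run A).map id
          (· + (l.length * (q + 1) + q)) := by
      intro m₀ hm
      rw [readEntry_run p.1 p.2 r A _ q 0 m₀ hm, ih]
      have : (fun i j => if (i, j) ∈ l then fl r q A i j else
          upd f p ⌊A p.1 p.2 * 2 ^ (0 + q) / 2 ^ r⌋ i j) =
          fun i j => if (i, j) ∈ p :: l then fl r q A i j else f i j := by
        funext i j
        by_cases h1 : (i, j) ∈ l
        · simp [h1]
        · by_cases h2 : (i, j) = p
          · subst h2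
            simp [h1, upd, fl]
          · simp [h1, h2, upd]
      rw [this]
      ext <;> simp [add_assoc]
    have h1 := hA p.1 p.2
    rw [abs_lt] at h1
    have h2 : (0 : ℝ) < 2 ^ r := by positivity
    simp only [readAll, Tree.run]
    have hd : dy 0 0 = 0 := by simp [dy]
    rw [hd]
    by_cases hc : A p.1 p.2 < 0
    · rw [if_pos hc, key (-1)]
      · ext <;> simp
        ring
      · symm
        rw [Int.floor_eq_iff]
        push_cast
        constructor
        · rw [le_div_iff₀ h2]
          linarith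
        · rw [div_lt_iff₀ h2]
          linarith
    · rw [if_neg hc, key 0]
      · ext <;> simp
        ring
      · symm
        push Not at hc
        rw [Int.floor_eq_iff]
        push_cast
        constructor
        · positivity
        · rw [div_lt_iff₀ h2]
          linarith

lemma readAll_small {n : ℕ} (r q w : ℕ) (k : (Fin n → Fin n → ℤ) → Tree n)
    (hw : r + q ≤ w) (hk : ∀ f, (k f).Small w) :
    ∀ (l : List (Fin n × Fin n)) (f : Fin n → Fin n → ℤ), (readAll r q l f k).Small w := by
  intro l
  induction l with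
  | nil => intro f; exact hk f
  | cons p l ih =>
    intro f
    refine ⟨by omega, by simp, ?_, ?_⟩
    · exact readEntry_small _ _ _ _ _ q 0 (-1) (by norm_num) (by norm_num) (by omega)
        fun m _ _ => ih _
    · exact readEntry_small _ _ _ _ _ q 0 0 (by norm_num) (by norm_num) (by omega)
        fun m _ _ => ih _

end Pool.Agent.Helper528_RL
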